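import Pool.Agent.HOut.Out
import Pool.Agent.HHalf.CNodes

/-!
THEOREM OUT in the `om (zL L)` form.
-/

set_option autoImplicit false

namespace Pool.Agent.HOut

open Complex Set Metric ComplexConjugate Polynomial MeasureTheory Pool.Agent.ConjInterp
  Pool.Agent.HHalf

theorem om_zL_eval {N : ℕ} (L : Fin N → ℂ) (h : ℂ → ℂ) (w : ℂ) :
    (om (zL L)).eval w * h w = fL (List.ofFn L) h w := by
  rw [fL_eq]
  congr 1
  rw [om_zL, Polynomial.eval_prod]
  have h1 : ConjInterp.lp (List.ofFn L ++ (List.ofFn L).map conj) w =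
      ((List.ofFn L).map (fun z => (w - z) * (w - conj z))).prod := by
    rw [ConjInterp.lp, List.map_append, List.prod_append, List.map_map, ← List.prod_map_mul]
    rfl
  rw [h1, List.map_ofFn, List.prod_ofFn]
  refine Finset.prod_congr rfl fun i _ => ?_
  simp [pr]

theorem om_zL_eval_one {N : ℕ} (L : Fin N → ℂ) (w : ℂ) :
    (om (zL L)).eval w = fL (List.ofFn L) (fun _ => 1) w := by
  rw [← om_zL_eval, mul_one]

/-- THEOREM OUT, `Fin N` form. -/
theorem out_fin {N : ℕ} {L : Fin N → ℂ} (hL : ∀ a, ‖L a‖ ≤ 1) {k : ℕ} (hk : k ≤ 2 * N)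
    {h : ℂ → ℂ} (hh : Differentiable ℂ h)
    (hb : ∀ w, ‖w‖ ≤ 1 → ‖iteratedDeriv (2 * N) (fun w => (om (zL L)).eval w * h w) w‖ ≤ 1)
    {x : ℝ} (hx : x ∈ Icc (-1:ℝ) 1)
    (hout : (∀ a, (L a).re ≤ (1 + x) / 2) ∨ (∀ a, (x - 1) / 2 ≤ (L a).re)) :
    ∃ e : ℝ, (e = 1 ∨ e = -1) ∧
      ‖iteratedDeriv k (fun w => (om (zL L)).eval w * h w) (x:ℂ)‖ ≤
      (1 / ((2 * N).factorial : ℝ)) * ‖iteratedDeriv k (fun w => (om (zL L)).eval w) (e:ℂ)‖ := by
  have hf : (fun w => (om (zL L)).eval w * h w) = fL (List.ofFn L) h := by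
    funext w; exact om_zL_eval L h w
  have hf1 : (fun w => (om (zL L)).eval w) = fL (List.ofFn L) (fun _ => 1) := by
    funext w; exact om_zL_eval_one L w
  have hlen : (List.ofFn L).length = N := List.length_ofFn
  rw [hf] at hb ⊢
  rw [hf1]
  have hmem : ∀ P : ℂ → Prop, (∀ a, P (L a)) → ∀ z ∈ List.ofFn L, P z := by
    intro P hP z hz
    obtain ⟨a, rfl⟩ := (List.mem_ofFn' L z).1 hz
    exact hP a
  have h1 := out_list hx (List.ofFn L) (hmem (fun z => ‖z‖ ≤ 1) hL)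
    (hout.imp (hmem (fun z => z.re ≤ (1 + x) / 2)) (hmem (fun z => (x - 1) / 2 ≤ z.re))) hh
    (by rw [hlen]; exact hb) (k := k) (by rw [hlen]; exact hk)
  rw [hlen] at h1
  exact h1

/-- Outside the range of THEOREM OUT there are a pair far to the right and a pair far to the left. -/
theorem mid_of_not_out {N : ℕ} {L : Fin N → ℂ} {x : ℝ}
    (h : ¬ ((∀ a, (L a).re ≤ (1 + x) / 2) ∨ (∀ a, (x - 1) / 2 ≤ (L a).re))) :
    (∃ a, (1 + x) / 2 < (L a).re) ∧ (∃ a, (L a).re < (x - 1) / 2) := by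
  push Not at h
  exact h

end Pool.Agent.HOut
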