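import Pool.Agent.HHalf.AThm
import Pool.Agent.ConjInterp.TopOrder

/-!
Order `k = n - 1` for an arbitrary self-conjugate list: the bound `max (|σ|, 2)`.
-/

set_option autoImplicit false

namespace Pool.Agent.HOut

open Complex Set Metric ComplexConjugate Polynomial MeasureTheory Pool.Agent.ConjInterp
  Pool.Agent.HHalf

theorem cc_top {n : ℕ} (z : Fin (n + 1) → ℂ) (x : ℂ) (j : Fin (n + 1)) : cc z n x j = x - z j := by
  have h1 : (omj z j).natDegree = n := by
    unfold omj
    rw [Polynomial.natDegree_finsetProd_X_sub_C_eq_card, Finset.card_erase_of_mem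
      (Finset.mem_univ j), Finset.card_univ, Fintype.card_fin, Nat.add_sub_cancel]
  have h2 : (omj z j).Monic := Polynomial.monic_prod_of_monic _ _ fun i _ => monic_X_sub_C (z i)
  unfold cc
  have h3 := Polynomial.hasseDeriv_natDegree_eq_C (omj z j)
  rw [h1] at h3
  rw [h3, h2.leadingCoeff]
  simp

/-- The case `d = 1` for arbitrary nodes of the disc. -/
theorem thm_one {n : ℕ} {z : Fin (n + 1) → ℂ} (hz : ∀ i, ‖z i‖ ≤ 1) {x : ℂ} (hx : ‖x‖ ≤ 1)
    {h : ℂ → ℂ} (hh : Differentiable ℂ h)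
    (hb : ∀ w, ‖w‖ ≤ 1 → ‖iteratedDeriv (n + 1) (fun w => (∏ i, (w - z i)) * h w) w‖ ≤ 1)
    {B : ℝ} (hB : 2 ≤ B) (hs : ‖∑ j, (x - z j)‖ ≤ B) :
    ‖iteratedDeriv n (fun w => (∏ i, (w - z i)) * h w) x‖ ≤
      (n.factorial : ℝ) / ((n + 1).factorial : ℝ) * B := by
  refine thmA hz (k := n) (d := 1) rfl le_rfl hx hh hb (by linarith) ?_ ?_
  · have h1 := sum_cc z (k := n) (d := 1) (by simp) x
    simp only [cc_top] at h1
    rw [Nat.cast_one, one_mul] at h1
    rw [← h1]
    exact hs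
  · intro i j
    rw [cc_top, cc_top]
    have h1 : x - z i - (x - z j) = -(z i - z j) := by ring
    rw [h1, norm_neg]
    have h2 : (1:ℝ) ≤ ((1:ℕ):ℝ) * B / 2 := by
      rw [Nat.cast_one]
      linarith
    calc ‖z i - z j‖ = 1 * ‖z i - z j‖ := (one_mul _).symm
      _ ≤ _ := mul_le_mul_of_nonneg_right h2 (norm_nonneg _)

theorem ofFn_get_cast (l : List ℂ) : ∀ (m : ℕ) (hl : l.length = m),
    List.ofFn (fun i : Fin m => l.get (Fin.cast hl.symm i)) = l := by
  rintro m rfl
  exact List.ofFn_get l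

theorem sum_pairs (L : List ℂ) (x : ℝ) :
    ((L ++ L.map conj).map (fun w => (x:ℂ) - w)).sum =
      (((L.map (fun w => 2 * (x - w.re))).sum : ℝ) : ℂ) := by
  rw [List.map_append, List.sum_append, List.map_map]
  induction L with
  | nil => simp
  | cons z L ih =>
    simp only [List.map_cons, List.sum_cons, Function.comp_apply] at ih ⊢
    have h1 : (x:ℂ) - z + ((x:ℂ) - conj z) = ((2 * (x - z.re) : ℝ) : ℂ) := by
      apply Complex.ext
      · simp; ring
      · simp
    push_cast at ih h1 ⊢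
    linear_combination ih + h1

theorem iter_smul {f : ℂ → ℂ} (hf : Differentiable ℂ f) (t : ℂ) (m : ℕ) (w : ℂ) :
    iteratedDeriv m (fun w => t * f w) w = t * iteratedDeriv m f w :=
  iteratedDeriv_const_mul t (entire_contDiffAt hf m w)

/-- The bound for a list of conjugate pairs, order `2 len - 1`, bound `1`. -/
theorem list_one_aux {L : List ℂ} (hL : ∀ z ∈ L, ‖z‖ ≤ 1) (hne : L ≠ []) {x : ℝ} (hx : |x| ≤ 1)
    {h : ℂ → ℂ} (hh : Differentiable ℂ h)
    (hb : ∀ w, ‖w‖ ≤ 1 → ‖iteratedDeriv (2 * L.length) (fL L h) w‖ ≤ 1)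
    {B : ℝ} (hB : 2 ≤ B) (hs : |(L.map (fun w => 2 * (x - w.re))).sum| ≤ B) :
    ‖iteratedDeriv (2 * L.length - 1) (fL L h) x‖ ≤
      ((2 * L.length - 1).factorial : ℝ) / ((2 * L.length).factorial : ℝ) * B := by
  have hlen : 0 < L.length := List.length_pos_iff.2 hne
  obtain ⟨n, hn⟩ : ∃ n, 2 * L.length = n + 1 := ⟨2 * L.length - 1, by omega⟩
  have hl : (L ++ L.map conj).length = n + 1 := by
    rw [List.length_append, List.length_map]
    omega
  set l := L ++ L.map conj with hld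
  set z : Fin (n + 1) → ℂ := fun i => l.get (Fin.cast hl.symm i) with hz
  have hofn : List.ofFn z = l := ofFn_get_cast l (n + 1) hl
  have hz1 : ∀ i, ‖z i‖ ≤ 1 := by
    intro i
    have h1 : z i ∈ l := List.get_mem l _
    rw [hld, List.mem_append, List.mem_map] at h1
    rcases h1 with h1 | ⟨w, hw, h1⟩
    · exact hL _ h1
    · rw [← h1, RCLike.norm_conj]
      exact hL _ hw
  have hprod : ∀ w : ℂ, ∏ j, (w - z j) = lp l w := by
    intro w
    rw [prod_eq_lp, hofn]
  have hfun : fL L h = fun w => (∏ j, (w - z j)) * h w := by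
    funext w
    rw [hprod, fL_eq]
  have hsum : ∑ j, ((x:ℂ) - z j) = (((L.map (fun w => 2 * (x - w.re))).sum : ℝ) : ℂ) := by
    rw [← sum_pairs, ← hld, ← hofn, List.map_ofFn, List.sum_ofFn]
    rfl
  rw [hfun, hn] at hb ⊢
  rw [Nat.add_sub_cancel]
  refine thm_one hz1 (by rw [Complex.norm_real]; exact hx) hh hb hB ?_
  rw [hsum, Complex.norm_real]
  exact hs

/-- The bound for a list of conjugate pairs, order `2 len - 1`. -/
theorem list_one {L : List ℂ} (hL : ∀ z ∈ L, ‖z‖ ≤ 1) (hne : L ≠ []) {x : ℝ} (hx : |x| ≤ 1)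
    {h : ℂ → ℂ} (hh : Differentiable ℂ h) {C : ℝ}
    (hb : ∀ w, ‖w‖ ≤ 1 → ‖iteratedDeriv (2 * L.length) (fL L h) w‖ ≤ C)
    {B : ℝ} (hB : 2 ≤ B) (hs : |(L.map (fun w => 2 * (x - w.re))).sum| ≤ B) :
    ‖iteratedDeriv (2 * L.length - 1) (fL L h) x‖ ≤
      C / ((2 * L.length).factorial : ℝ) * (((2 * L.length - 1).factorial : ℝ) * B) := by
  have hC0 : 0 ≤ C := (norm_nonneg _).trans (hb 0 (by simp))
  set K : ℝ := ((2 * L.length - 1).factorial : ℝ) / ((2 * L.length).factorial : ℝ) * B with hK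
  have hscale : ∀ t : ℝ, 0 ≤ t → t * C ≤ 1 →
      t * ‖iteratedDeriv (2 * L.length - 1) (fL L h) x‖ ≤ K := by
    intro t ht htC
    have e1 : fL L (fun w => (t:ℂ) * h w) = fun w => (t:ℂ) * fL L h w := by
      funext w
      rw [fL_eq, fL_eq]
      ring
    have h1 := list_one_aux hL hne hx (h := fun w => (t:ℂ) * h w) (hh.const_mul _) (by
      intro w hw
      rw [e1, iter_smul (fL_entire L hh), norm_mul, Complex.norm_real, Real.norm_of_nonneg ht]
      exact (mul_le_mul_of_nonneg_left (hb w hw) ht).trans htC) hB hs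
    rw [e1, iter_smul (fL_entire L hh), norm_mul, Complex.norm_real, Real.norm_of_nonneg ht] at h1
    exact h1
  have hgoal : C / ((2 * L.length).factorial : ℝ) * (((2 * L.length - 1).factorial : ℝ) * B) =
      C * K := by
    rw [hK]
    ring
  rw [hgoal]
  rcases hC0.eq_or_lt with h0 | h0
  · -- C = 0
    rw [← h0, zero_mul]
    by_contra hcon
    rw [not_le] at hcon
    set N := ‖iteratedDeriv (2 * L.length - 1) (fL L h) (x:ℂ)‖ with hN
    have hK0 : 0 ≤ K := by
      rw [hK]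
      have : (0:ℝ) ≤ B := by linarith
      positivity
    have h1 := hscale ((K + 1) / N) (by positivity) (by rw [← h0, mul_zero]; norm_num)
    rw [div_mul_cancel₀ _ hcon.ne'] at h1
    linarith
  · have h1 := hscale (1 / C) (by positivity) (by rw [one_div, inv_mul_cancel₀ h0.ne'])
    rw [one_div, inv_mul_le_iff₀ h0] at h1
    exact h1

end Pool.Agent.HOut
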