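import Pool.Agent.HStar.Asm
import Pool.Agent.HOut.OutFin

/-!
THEOREM OUT in the form of `HStar.equality_all` (hypothesis `hout`).
-/

set_option autoImplicit false

namespace Pool.Agent.HOut

open Complex Set ComplexConjugate Polynomial Pool.Agent.ConjInterp Pool.Agent.HHalf
  Pool.Agent.HStar

theorem hout (N k : ℕ) (L : Fin N → ℂ) (x : ℝ) (hL : ∀ a, ‖L a‖ ≤ 1) (hk : k ≤ 2 * N)
    (hx : x ∈ Icc (-1:ℝ) 1)
    (ho : (∀ a, (x - 1) / 2 ≤ (L a).re) ∨ (∀ a, (L a).re ≤ (1 + x) / 2)) : PW L k x := by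
  intro h hh hb
  obtain ⟨e, he, h1⟩ := out_fin hL hk hh hb hx ho.symm
  refine ⟨e, ?_, h1⟩
  rcases he with rfl | rfl <;> constructor <;> norm_num

/-- The hypothesis `hout` of `HStar.equality_all`. -/
theorem hout_all : ∀ (N k : ℕ) (L : Fin N → ℂ) (x : ℝ), (∀ a, ‖L a‖ ≤ 1) → 1 ≤ k → k + 1 ≤ N →
    x ∈ Icc (-1:ℝ) 1 → ((∀ a, (x - 1) / 2 ≤ (L a).re) ∨ (∀ a, (L a).re ≤ (1 + x) / 2)) →
    PW L k x :=
  fun N k L x hL _ hk hx ho => hout N k L x hL (by omega) hx ho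

end Pool.Agent.HOut
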