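import Pool.Agent.HOut.Base

/-!
THEOREM OUT: `x ≥ 2 max Re z - 1` or `x ≤ 2 min Re z + 1` (all orders, all lists of pairs).
-/

set_option autoImplicit false

namespace Pool.Agent.HOut

open Complex Set Metric ComplexConjugate Polynomial MeasureTheory Pool.Agent.ConjInterp
  Pool.Agent.HHalf

/-- Induction over the pairs with the base case `list_one`. -/
theorem out_core {x : ℝ} (hx : |x| ≤ 1) (α q : ℂ → ℝ) : ∀ L : List ℂ,
    (∀ z ∈ L, ‖z‖ ≤ 1 ∧ |x - z.re| ≤ α z ∧ ‖(x:ℂ) - z‖ ^ 2 ≤ q z) →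
    (∀ L' : List ℂ, L' <:+ L → L' ≠ [] → 1 ≤ (L'.map α).sum) →
    ∀ {h : ℂ → ℂ}, Differentiable ℂ h → ∀ {C : ℝ},
    (∀ w, ‖w‖ ≤ 1 → ‖iteratedDeriv (2 * L.length) (fL L h) w‖ ≤ C) →
    ∀ k ≤ 2 * L.length,
      ‖iteratedDeriv k (fL L h) x‖ ≤ C / (Nat.factorial (2 * L.length) : ℝ) * Bd α q L k := by
  have hx' : ‖(x:ℂ)‖ ≤ 1 := by rw [Complex.norm_real]; exact hx
  intro L
  induction L with
  | nil =>
    intro _ _ h hh C hC k hk
    have hk0 : k = 0 := by simpa using hk
    subst hk0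
    have := hC x hx'
    simpa [Bd, fL] using this
  | cons z L ih =>
    intro hL hS h hh C hC k hk
    have hG : Differentiable ℂ (fL L h) := fL_entire L hh
    have hC0 : 0 ≤ C := (norm_nonneg _).trans (hC 0 (by simp))
    obtain ⟨hz, hz1, hz3⟩ := hL z List.mem_cons_self
    have hL' := fun w hw => hL w (List.mem_cons_of_mem z hw)
    have hS' : ∀ L' : List ℂ, L' <:+ L → L' ≠ [] → 1 ≤ (L'.map α).sum :=
      fun L' h1 h2 => hS L' (h1.trans (List.suffix_cons z L)) h2
    have hα : 0 ≤ α z := (abs_nonneg _).trans hz1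
    have hq : 0 ≤ q z := (sq_nonneg _).trans hz3
    set m := 2 * L.length with hm
    have e : 2 * (z :: L).length = m + 2 := by rw [List.length_cons]; ring
    -- bound for the quotient
    have hC2 : ∀ w, ‖w‖ ≤ 1 → ‖iteratedDeriv (m + 2) (fL (z :: L) h) w‖ ≤ C := by
      rw [← e]; exact hC
    have hC1 : ∀ w, ‖w‖ ≤ 1 → ‖iteratedDeriv m (fL L h) w‖ ≤ C / (((m:ℝ) + 2) * (m + 1)) :=
      fun w hw => remove_pair hz m hG hC2 hw
    have IH := ih hL' hS' hh hC1
    have hfac : C / (((m:ℝ) + 2) * (m + 1)) / (Nat.factorial m : ℝ)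
        = C / (Nat.factorial (m + 2) : ℝ) := by
      rw [Nat.factorial_succ, Nat.factorial_succ]
      push_cast
      rw [div_div]
      congr 1
      ring
    rw [hfac] at IH
    rw [e] at hk ⊢
    set c := C / (Nat.factorial (m + 2) : ℝ) with hc
    have hc0 : 0 ≤ c := by positivity
    have hBnn := Bd_nonneg (α := α) (q := q) L
      (fun w hw => (abs_nonneg _).trans (hL' w hw).2.1)
      (fun w hw => (sq_nonneg _).trans (hL' w hw).2.2)
    -- norms of the coefficients
    have hQ : ‖((x:ℂ) - z) * ((x:ℂ) - conj z)‖ ≤ q z := by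
      have h1 : ‖(x:ℂ) - conj z‖ = ‖(x:ℂ) - z‖ := by
        rw [← RCLike.norm_conj ((x:ℂ) - z)]
        simp
      rw [norm_mul, h1, ← sq]
      exact hz3
    have hQ' : ‖((x:ℂ) - z) + ((x:ℂ) - conj z)‖ ≤ 2 * α z := by
      have : ((x:ℂ) - z) + ((x:ℂ) - conj z) = ((2 * (x - z.re) : ℝ) : ℂ) := by
        apply Complex.ext
        · simp; ring
        · simp
      rw [this, Complex.norm_real, Real.norm_eq_abs, abs_mul, abs_two]
      linarith
    have hkk : ∀ k : ℕ, ‖(k:ℂ) * ((k:ℂ) - 1)‖ = (k:ℝ) * ((k:ℝ) - 1) := by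
      intro k
      have h3 : 0 ≤ (k:ℝ) * ((k:ℝ) - 1) := by
        rcases Nat.eq_zero_or_pos k with hk | hk
        · simp [hk]
        · have : (1:ℝ) ≤ k := by exact_mod_cast hk
          have : 0 ≤ (k:ℝ) - 1 := by linarith
          positivity
      have : (k:ℂ) * ((k:ℂ) - 1) = (((k:ℝ) * ((k:ℝ) - 1) : ℝ) : ℂ) := by push_cast; ring
      rw [this, Complex.norm_real, Real.norm_of_nonneg h3]
    rcases Nat.lt_or_ge m k with hlt | hge
    · rcases Nat.lt_or_ge (m + 1) k with hlt2 | hge2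
      · -- k = m + 2
        have hk2 : k = m + 2 := by omega
        subst hk2
        have h1 := hC2 x hx'
        have hB : Bd α q (z :: L) (m + 2) = (Nat.factorial (m + 2) : ℝ) := by
          have := Bd_top α q (z :: L)
          rwa [e] at this
        rw [hB, hc, div_mul_cancel₀ _ (by positivity)]
        exact h1
      · -- k = m + 1
        have hk1 : k = m + 1 := by omega
        subst hk1
        have hne : z :: L ≠ [] := List.cons_ne_nil z L
        have hB := Bd_sub_one α q (z :: L) hne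
        rw [e, show m + 2 - 1 = m + 1 by omega] at hB
        have hsum1 : 1 ≤ ((z :: L).map α).sum := hS _ List.suffix_rfl hne
        have hsum2 : ((z :: L).map (fun z => 2 * α z)).sum = 2 * ((z :: L).map α).sum := by
          rw [← List.sum_map_mul_left]
        have hab : |((z :: L).map (fun w => 2 * (x - w.re))).sum| ≤
            ((z :: L).map (fun z => 2 * α z)).sum := by
          have gen : ∀ l : List ℂ, (∀ w ∈ l, |x - w.re| ≤ α w) →
              |(l.map (fun w => 2 * (x - w.re))).sum| ≤ (l.map (fun z => 2 * α z)).sum := by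
            intro l
            induction l with
            | nil => intro _; simp
            | cons w l ihl =>
              intro hw
              rw [List.map_cons, List.map_cons, List.sum_cons, List.sum_cons]
              have h1 := ihl fun v hv => hw v (List.mem_cons_of_mem w hv)
              have h2 := hw w List.mem_cons_self
              refine (abs_add_le _ _).trans (add_le_add ?_ h1)
              rw [abs_mul, abs_two]
              linarith
          exact gen _ fun w hw => (hL w hw).2.1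
        have h1 := list_one (L := z :: L) (fun w hw => (hL w hw).1) hne hx hh hC
          (B := ((z :: L).map (fun z => 2 * α z)).sum) (by rw [hsum2]; linarith) hab
        rw [e, show m + 2 - 1 = m + 1 by omega] at h1
        rw [hB]
        exact h1
    · -- k ≤ m
      change ‖iteratedDeriv k (fun w => (w - z) * ((w - conj z) * fL L h w)) x‖ ≤ _
      rw [iter_quad z (conj z) k hG, Bd]
      have h0 := IH k hge
      have h1 := IH (k - 1) (by omega)
      have h2 := IH (k - 2) (by omega)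
      have hn1 : ‖((k:ℂ)) * (((x:ℂ) - z) + ((x:ℂ) - conj z))‖ ≤ k * (2 * α z) := by
        rw [norm_mul, Complex.norm_natCast]
        exact mul_le_mul_of_nonneg_left hQ' (by positivity)
      calc ‖((x:ℂ) - z) * ((x:ℂ) - conj z) * iteratedDeriv k (fL L h) x
          + k * (((x:ℂ) - z) + ((x:ℂ) - conj z)) * iteratedDeriv (k - 1) (fL L h) x
          + k * ((k:ℂ) - 1) * iteratedDeriv (k - 2) (fL L h) x‖
          ≤ ‖((x:ℂ) - z) * ((x:ℂ) - conj z) * iteratedDeriv k (fL L h) x‖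
          + ‖k * (((x:ℂ) - z) + ((x:ℂ) - conj z)) * iteratedDeriv (k - 1) (fL L h) x‖
          + ‖k * ((k:ℂ) - 1) * iteratedDeriv (k - 2) (fL L h) x‖ := norm_add₃_le
        _ ≤ q z * (c * Bd α q L k) + k * (2 * α z) * (c * Bd α q L (k - 1))
            + k * ((k:ℝ) - 1) * (c * Bd α q L (k - 2)) := by
            rw [norm_mul (((x:ℂ) - z) * ((x:ℂ) - conj z)),
              norm_mul ((k:ℂ) * (((x:ℂ) - z) + ((x:ℂ) - conj z))),
              norm_mul ((k:ℂ) * ((k:ℂ) - 1)), hkk k]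
            have hkk0 : 0 ≤ (k:ℝ) * ((k:ℝ) - 1) := by rw [← hkk k]; exact norm_nonneg _
            apply add_le_add (add_le_add _ _)
            · exact mul_le_mul_of_nonneg_left h2 hkk0
            · exact mul_le_mul hQ h0 (norm_nonneg _) hq
            · exact mul_le_mul hn1 h1 (norm_nonneg _) (by positivity)
        _ = c * (q z * Bd α q L k + k * (2 * α z) * Bd α q L (k - 1)
            + k * ((k:ℝ) - 1) * Bd α q L (k - 2)) := by ring

theorem suffix_sum {α : ℂ → ℝ} (z0 : ℂ) (h0 : 1 ≤ α z0) : ∀ A : List ℂ,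
    (∀ w ∈ A, 0 ≤ α w) → ∀ L' : List ℂ, L' <:+ A ++ [z0] → L' ≠ [] → 1 ≤ (L'.map α).sum := by
  intro A
  have full : ∀ A : List ℂ, (∀ w ∈ A, 0 ≤ α w) → 1 ≤ ((A ++ [z0]).map α).sum := by
    intro A hA
    rw [List.map_append, List.sum_append]
    have h1 : 0 ≤ (A.map α).sum := by
      apply List.sum_nonneg
      intro y hy
      obtain ⟨w, hw, rfl⟩ := List.mem_map.1 hy
      exact hA w hw
    simp only [List.map_cons, List.map_nil, List.sum_cons, List.sum_nil, add_zero]
    linarith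
  induction A with
  | nil =>
    intro _ L' hL' hne
    rw [List.nil_append] at hL'
    rcases List.suffix_cons_iff.1 hL' with h1 | h1
    · subst h1
      simpa using h0
    · exact absurd (List.suffix_nil.1 h1) hne
  | cons a A ih =>
    intro hA L' hL' hne
    rw [List.cons_append] at hL'
    rcases List.suffix_cons_iff.1 hL' with h1 | h1
    · subst h1
      exact full (a :: A) hA
    · exact ih (fun w hw => hA w (List.mem_cons_of_mem a hw)) L' h1 hne

theorem fL_perm {L L' : List ℂ} (hp : L.Perm L') (h : ℂ → ℂ) : fL L h = fL L' h := by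
  funext w
  rw [fL_eq, fL_eq, lp_perm (hp.append (hp.map _))]

/-- One endpoint `e`; `z0` is on the other side. -/
theorem out_end {x e : ℝ} (hx : |x| ≤ 1) (he : e = 1 ∨ e = -1) (L : List ℂ)
    (hL : ∀ z ∈ L, ‖z‖ ≤ 1 ∧ |x - z.re| ≤ |e - z.re|) {z0 : ℂ} (hz0 : z0 ∈ L)
    (h0 : 1 ≤ |e - z0.re|) {h : ℂ → ℂ} (hh : Differentiable ℂ h)
    (hb : ∀ w : ℂ, ‖w‖ ≤ 1 → ‖iteratedDeriv (2 * L.length) (fL L h) w‖ ≤ 1) {k : ℕ}
    (hk : k ≤ 2 * L.length) :
    ‖iteratedDeriv k (fL L h) x‖ ≤ 1 / (Nat.factorial (2 * L.length) : ℝ) *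
      ‖iteratedDeriv k (fL L (fun _ => 1)) (e:ℂ)‖ := by
  have hp : L.Perm (L.erase z0 ++ [z0]) :=
    (List.perm_cons_erase hz0).trans (List.perm_append_singleton z0 (L.erase z0)).symm
  set L2 := L.erase z0 ++ [z0] with hL2
  have hlen : L.length = L2.length := hp.length_eq
  rw [fL_perm hp, fL_perm hp, hlen]
  rw [fL_perm hp, hlen] at hb
  rw [hlen] at hk
  have hmem : ∀ z ∈ L2, ‖z‖ ≤ 1 ∧ |x - z.re| ≤ |e - z.re| := fun z hz => hL z (hp.mem_iff.2 hz)
  have h1 := out_core hx (fun z => |e - z.re|) (fun z => ‖(e:ℂ) - z‖ ^ 2) L2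
    (by
      intro z hz
      obtain ⟨h1, h2⟩ := hmem z hz
      refine ⟨h1, h2, ?_⟩
      have e1 : ∀ y : ℝ, ‖(y:ℂ) - z‖ ^ 2 = (y - z.re) ^ 2 + z.im ^ 2 := by
        intro y
        rw [← Complex.normSq_eq_norm_sq, Complex.normSq_apply]
        simp only [Complex.sub_re, Complex.sub_im, Complex.ofReal_re, Complex.ofReal_im]
        ring
      rw [e1, e1]
      have := sq_le_sq.2 h2
      linarith)
    (suffix_sum z0 h0 (L.erase z0) fun w _ => abs_nonneg _) hh hb k hk
  refine h1.trans ?_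
  apply mul_le_mul_of_nonneg_left _ (by positivity)
  rw [at_endpoint he L2 (fun z hz => (hmem z hz).1) k, Complex.norm_real, Real.norm_eq_abs, abs_mul]
  have h2 : |e ^ k| = 1 := by
    rw [abs_pow]
    rcases he with rfl | rfl <;> simp
  rw [h2, one_mul]
  exact le_abs_self _

/-- THEOREM OUT for a list of conjugate pairs. -/
theorem out_list {x : ℝ} (hx : x ∈ Icc (-1:ℝ) 1) (L : List ℂ) (hL : ∀ z ∈ L, ‖z‖ ≤ 1)
    (hout : (∀ z ∈ L, z.re ≤ (1 + x) / 2) ∨ (∀ z ∈ L, (x - 1) / 2 ≤ z.re))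
    {h : ℂ → ℂ} (hh : Differentiable ℂ h)
    (hb : ∀ w : ℂ, ‖w‖ ≤ 1 → ‖iteratedDeriv (2 * L.length) (fL L h) w‖ ≤ 1) {k : ℕ}
    (hk : k ≤ 2 * L.length) :
    ∃ e : ℝ, (e = 1 ∨ e = -1) ∧ ‖iteratedDeriv k (fL L h) x‖ ≤
      1 / (Nat.factorial (2 * L.length) : ℝ) * ‖iteratedDeriv k (fL L (fun _ => 1)) (e:ℂ)‖ := by
  have hx1 : |x| ≤ 1 := abs_le.2 ⟨hx.1, hx.2⟩
  have hre : ∀ z ∈ L, -1 ≤ z.re ∧ z.re ≤ 1 := fun z hz =>
    abs_le.1 ((Complex.abs_re_le_norm z).trans (hL z hz))
  -- the two options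
  have plus : (∀ z ∈ L, z.re ≤ (1 + x) / 2) → ∀ z0 ∈ L, z0.re ≤ 0 →
      ‖iteratedDeriv k (fL L h) x‖ ≤ 1 / (Nat.factorial (2 * L.length) : ℝ) *
        ‖iteratedDeriv k (fL L (fun _ => 1)) ((1:ℝ):ℂ)‖ := by
    intro hA z0 hz0 h0
    refine out_end hx1 (Or.inl rfl) L (fun z hz => ⟨hL z hz, ?_⟩) hz0 ?_ hh hb hk
    · have h1 := hA z hz
      have h2 := (hre z hz).2
      rw [abs_of_nonneg (a := 1 - z.re) (by linarith)]
      exact abs_le.2 ⟨by linarith [hx.1], by linarith [hx.2]⟩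
    · rw [abs_of_nonneg (by linarith)]
      linarith
  have minus : (∀ z ∈ L, (x - 1) / 2 ≤ z.re) → ∀ z0 ∈ L, 0 ≤ z0.re →
      ‖iteratedDeriv k (fL L h) x‖ ≤ 1 / (Nat.factorial (2 * L.length) : ℝ) *
        ‖iteratedDeriv k (fL L (fun _ => 1)) ((-1:ℝ):ℂ)‖ := by
    intro hA z0 hz0 h0
    refine out_end hx1 (Or.inr rfl) L (fun z hz => ⟨hL z hz, ?_⟩) hz0 ?_ hh hb hk
    · have h1 := hA z hz
      have h2 := (hre z hz).1
      rw [abs_of_nonpos (a := -1 - z.re) (by linarith)]
      exact abs_le.2 ⟨by linarith [hx.1], by linarith [hx.2]⟩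
    · rw [abs_of_nonpos (by linarith)]
      linarith
  rcases L.eq_nil_or_concat with hnil | ⟨L', b, hLb⟩
  · subst hnil
    refine ⟨1, Or.inl rfl, ?_⟩
    have hk0 : k = 0 := by simpa using hk
    subst hk0
    have := hb (x:ℂ) (by rw [Complex.norm_real]; exact hx1)
    simpa [fL] using this
  · have hbm : b ∈ L := by rw [hLb]; simp
    rcases hout with hA | hB
    · by_cases hex : ∃ z0 ∈ L, z0.re ≤ 0
      · obtain ⟨z0, hz0, h0⟩ := hex
        exact ⟨1, Or.inl rfl, plus hA z0 hz0 h0⟩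
      · push Not at hex
        exact ⟨-1, Or.inr rfl, minus (fun z hz => by linarith [hex z hz, hx.2]) b hbm
          (hex b hbm).le⟩
    · by_cases hex : ∃ z0 ∈ L, 0 ≤ z0.re
      · obtain ⟨z0, hz0, h0⟩ := hex
        exact ⟨-1, Or.inr rfl, minus hB z0 hz0 h0⟩
      · push Not at hex
        exact ⟨1, Or.inl rfl, plus (fun z hz => by linarith [hex z hz, hx.1]) b hbm
          (hex b hbm).le⟩

end Pool.Agent.HOut
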